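import Pool.Agent.Q144.DA.Arg

/-!
# Project DA (helper276), job DA-ARC: eight good primes (helper144)

Modulo `p` the numbers `P_j(i s)`, `j < p`, are computed in a list, the last one first; the pair
`(a, b)` is stored as `a + 2^24 b`.  The definitions use recursors for a fast reduction in the
kernel.
-/

set_option autoImplicit false

namespace Pool.Agent.Q144.DA

open Pool.Agent.Q276.DA

/-- the sums of divisors of `1, ..., 72` -/
def sgT : List ℕ := [1, 3, 4, 7, 6, 12, 8, 15, 13, 18, 12, 28, 14, 24, 24, 31, 18, 39, 20, 42, 32,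
  36, 24, 60, 31, 42, 40, 56, 30, 72, 32, 63, 48, 54, 48, 91, 38, 60, 56, 90, 42, 96, 44, 84, 78,
  72, 48, 124, 57, 93, 72, 98, 54, 120, 72, 120, 80, 90, 60, 168, 62, 96, 104, 127, 84, 144, 68,
  126, 96, 144, 72, 195]

/-- the sum of the products -/
def dot (L : List ℕ) : List ℕ → ℕ :=
  List.rec (motive := fun _ => List ℕ → ℕ) (fun _ => 0)
    (fun b _ ih T => List.rec (motive := fun _ => ℕ) 0
      (fun a as _ => Nat.add (Nat.mul a b) (ih as)) T) L

/-- the next pair -/
def nxt (p s i D : ℕ) : ℕ :=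
  Nat.add (Nat.mod (Nat.mul i (Nat.mul s (Nat.sub p (Nat.mod (Nat.div D 16777216) p)))) p)
    (Nat.mul (Nat.mod (Nat.mul i (Nat.mul s (Nat.mod D 16777216))) p) 16777216)

/-- the list of the pairs of the numbers up to `n` -/
def run (p s : ℕ) (n : ℕ) : List ℕ :=
  Nat.rec (motive := fun _ => List ℕ) [1]
    (fun n L => nxt p s (Nat.mod (Nat.pow (Nat.succ n) (Nat.sub p 2)) p) (dot L sgT) :: L) n

/-- the norm of the pair is not divisible by `p` -/
def okc (p c : ℕ) : Bool :=
  !(Nat.beq (Nat.mod (Nat.add (Nat.mul (Nat.mod c 16777216) (Nat.mod c 16777216))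
    (Nat.mul (Nat.div c 16777216) (Nat.div c 16777216))) p) 0)

/-- the test for all members -/
def allc (p : ℕ) (L : List ℕ) : Bool :=
  List.rec (motive := fun _ => Bool) true
    (fun a _ ih => Bool.rec (motive := fun _ => Bool) false ih (okc p a)) L

/-- the test for a list -/
def okl (p : ℕ) (L : List ℕ) : Bool :=
  Bool.rec (motive := fun _ => Bool) false (okc p (dot L sgT)) (allc p L)

/-- the test for `1, ..., n` -/
def chk (p n : ℕ) : Bool :=
  Nat.rec (motive := fun _ => Bool) true
    (fun s ih => Bool.rec (motive := fun _ => Bool) false ih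
      (okl p (run p (Nat.succ s) (Nat.pred p)))) n

/-! ### the recursors -/

theorem dot_nil (T : List ℕ) : dot [] T = 0 := rfl

theorem dot_cons (b : ℕ) (bs : List ℕ) (a : ℕ) (as : List ℕ) :
    dot (b :: bs) (a :: as) = a * b + dot bs as := rfl

theorem nxt_eq (p s i D : ℕ) : nxt p s i D =
    (i * (s * (p - (D / 16777216) % p))) % p + ((i * (s * (D % 16777216))) % p) * 16777216 := rfl

theorem run_zero (p s : ℕ) : run p s 0 = [1] := rfl

theorem run_succ (p s n : ℕ) : run p s (n + 1) =
    nxt p s ((n + 1) ^ (p - 2) % p) (dot (run p s n) sgT) :: run p s n := rfl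

theorem okc_iff (p c : ℕ) : okc p c = true ↔
    ((c % 16777216) * (c % 16777216) + (c / 16777216) * (c / 16777216)) % p ≠ 0 := by
  show (!(Nat.beq (((c % 16777216) * (c % 16777216) + (c / 16777216) * (c / 16777216)) % p) 0))
    = true ↔ _
  rw [Bool.not_eq_true', ← Bool.not_eq_true, Nat.beq_eq]

theorem allc_iff (p : ℕ) (L : List ℕ) : allc p L = true ↔ ∀ c ∈ L, okc p c = true := by
  induction L with
  | nil =>
    constructor
    · intro _ c hc
      exact absurd hc (List.not_mem_nil)
    · intro _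
      rfl
  | cons a L ih =>
    have e : allc p (a :: L) = Bool.rec (motive := fun _ => Bool) false (allc p L) (okc p a) := rfl
    rw [e, List.forall_mem_cons, ← ih]
    cases okc p a
    · simp
    · simp

theorem okl_iff (p : ℕ) (L : List ℕ) : okl p L = true ↔
    (∀ c ∈ L, okc p c = true) ∧ okc p (dot L sgT) = true := by
  have e : okl p L = Bool.rec (motive := fun _ => Bool) false (okc p (dot L sgT)) (allc p L) := rfl
  rw [e, ← allc_iff]
  cases allc p L
  · simp
  · simp

theorem chk_iff (p n : ℕ) : chk p n = true ↔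
    ∀ s, 1 ≤ s → s ≤ n → okl p (run p s (p - 1)) = true := by
  induction n with
  | zero =>
    constructor
    · intro _ s h1 h2
      omega
    · intro _
      rfl
  | succ n ih =>
    have e : chk p (n + 1) = Bool.rec (motive := fun _ => Bool) false (chk p n)
      (okl p (run p (n + 1) (p - 1))) := rfl
    have h : chk p (n + 1) = true ↔ chk p n = true ∧ okl p (run p (n + 1) (p - 1)) = true := by
      rw [e]
      cases okl p (run p (n + 1) (p - 1))
      · simp
      · simp
    rw [h, ih]
    constructor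
    · rintro ⟨h1, h2⟩ s hs1 hs2
      rcases Nat.lt_or_ge n s with h3 | h3
      · have : s = n + 1 := by omega
        rw [this]
        exact h2
      · exact h1 s hs1 h3
    · intro h1
      exact ⟨fun s hs1 hs2 => h1 s hs1 (by omega), h1 (n + 1) (by omega) le_rfl⟩

theorem sgT_eq : sgT = (List.range' 0 72).map fun k => sg (k + 1) := by
  decide +kernel

/-! ### the numbers of the list -/

/-- the `n`-th number -/
def c (p s n : ℕ) : ℕ := (run p s n).headD 0

theorem c_zero (p s : ℕ) : c p s 0 = 1 := by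
  unfold c
  rw [run_zero, List.headD_cons]

theorem c_succ (p s n : ℕ) :
    c p s (n + 1) = nxt p s ((n + 1) ^ (p - 2) % p) (dot (run p s n) sgT) := by
  unfold c
  rw [run_succ, List.headD_cons]

theorem run_eq (p s n : ℕ) : run p s n = (List.range (n + 1)).map fun k => c p s (n - k) := by
  induction n with
  | zero => rfl
  | succ n ih =>
    rw [List.range_succ_eq_map, List.map_cons, List.map_map, run_succ, Nat.sub_zero, c_succ]
    congr 1
    rw [ih]
    refine List.map_congr_left fun k _ => ?_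
    rw [Function.comp_apply, Nat.succ_eq_add_one, Nat.add_sub_add_right]

theorem dot_range (f g : ℕ → ℕ) (m : ℕ) : ∀ a m' : ℕ, m ≤ m' →
    dot ((List.range' a m).map f) ((List.range' a m').map g) =
      ∑ k ∈ Finset.range m, g (a + k) * f (a + k) := by
  induction m with
  | zero =>
    intro a m' _
    rw [Finset.range_zero, Finset.sum_empty]
    rfl
  | succ m ih =>
    intro a m' hm
    obtain ⟨l, rfl⟩ : ∃ l, m' = l + 1 := ⟨m' - 1, by omega⟩
    rw [List.range'_succ, List.range'_succ, List.map_cons, List.map_cons, dot_cons,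
      ih (a + 1) l (by omega), Finset.sum_range_succ', add_comm]
    congr 1
    refine Finset.sum_congr rfl fun k _ => ?_
    rw [show a + 1 + k = a + (k + 1) by ring]

theorem dot_run (p s n : ℕ) (hn : n + 1 ≤ 72) :
    dot (run p s n) sgT = ∑ k ∈ Finset.range (n + 1), sg (k + 1) * c p s (n - k) := by
  rw [run_eq, sgT_eq, List.range_eq_range', dot_range _ _ _ 0 72 hn]
  refine Finset.sum_congr rfl fun k _ => ?_
  rw [Nat.zero_add]

/-- the real part of the `n`-th number -/
def ca (p s n : ℕ) : ℕ := c p s n % 16777216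

/-- the imaginary part of the `n`-th number -/
def cb (p s n : ℕ) : ℕ := c p s n / 16777216

theorem c_eq (p s n : ℕ) : c p s n = ca p s n + 16777216 * cb p s n :=
  (Nat.mod_add_div _ _).symm

/-- the real part of the sum -/
def sa (p s n : ℕ) : ℕ := ∑ k ∈ Finset.range (n + 1), sg (k + 1) * ca p s (n - k)

/-- the imaginary part of the sum -/
def sb (p s n : ℕ) : ℕ := ∑ k ∈ Finset.range (n + 1), sg (k + 1) * cb p s (n - k)

theorem sg_total : ∑ k ∈ Finset.range 72, sg (k + 1) ≤ 10000 := by
  have h : ∑ k ∈ Finset.range 72, sg (k + 1) = (sgT).sum := by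
    rw [sgT_eq, ← List.range_eq_range']
    rfl
  rw [h]
  decide +kernel

section Digits

variable {p : ℕ} (hp2 : 2 ≤ p) (hp : p ≤ 71)
include hp2 hp

theorem c_succ' (s n : ℕ) : c p s (n + 1) =
    ((n + 1) ^ (p - 2) % p * (s * (p - (dot (run p s n) sgT / 16777216) % p))) % p +
    (((n + 1) ^ (p - 2) % p * (s * (dot (run p s n) sgT % 16777216))) % p) * 16777216 := by
  rw [c_succ, nxt_eq]

theorem ca_succ (s n : ℕ) : ca p s (n + 1) =
    ((n + 1) ^ (p - 2) % p * (s * (p - (dot (run p s n) sgT / 16777216) % p))) % p := by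
  unfold ca
  rw [c_succ' hp2 hp, Nat.add_mul_mod_self_right]
  apply Nat.mod_eq_of_lt
  refine lt_of_lt_of_le (Nat.mod_lt _ (by omega)) (by omega)

theorem cb_succ (s n : ℕ) : cb p s (n + 1) =
    ((n + 1) ^ (p - 2) % p * (s * (dot (run p s n) sgT % 16777216))) % p := by
  unfold cb
  rw [c_succ' hp2 hp, Nat.add_mul_div_right _ _ (by norm_num), Nat.div_eq_of_lt, Nat.zero_add]
  refine lt_of_lt_of_le (Nat.mod_lt _ (by omega)) (by omega)

theorem ca_lt (s n : ℕ) : ca p s n < p := by
  rcases n with _ | n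
  · unfold ca
    rw [c_zero]
    omega
  · rw [ca_succ hp2 hp]
    exact Nat.mod_lt _ (by omega)

theorem cb_lt (s n : ℕ) : cb p s n < p := by
  rcases n with _ | n
  · unfold cb
    rw [c_zero]
    omega
  · rw [cb_succ hp2 hp]
    exact Nat.mod_lt _ (by omega)

theorem sa_lt (s n : ℕ) (hn : n + 1 ≤ 72) : sa p s n < 16777216 := by
  have h1 : sa p s n ≤ ∑ k ∈ Finset.range (n + 1), sg (k + 1) * 71 := by
    unfold sa
    refine Finset.sum_le_sum fun k _ => Nat.mul_le_mul_left _ ?_
    exact (ca_lt hp2 hp s (n - k)).le.trans hp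
  have h2 : ∑ k ∈ Finset.range (n + 1), sg (k + 1) * 71 ≤ ∑ k ∈ Finset.range 72, sg (k + 1) * 71 :=
    Finset.sum_le_sum_of_subset (Finset.range_subset_range.mpr hn)
  have h4 : ∑ k ∈ Finset.range 72, sg (k + 1) * 71 = (∑ k ∈ Finset.range 72, sg (k + 1)) * 71 := by
    rw [Finset.sum_mul]
  have h3 := sg_total
  omega

theorem dot_digits (s n : ℕ) (hn : n + 1 ≤ 72) :
    dot (run p s n) sgT % 16777216 = sa p s n ∧ dot (run p s n) sgT / 16777216 = sb p s n := by
  have h1 : dot (run p s n) sgT = sa p s n + 16777216 * sb p s n := by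
    rw [dot_run p s n hn]
    unfold sa sb
    rw [Finset.mul_sum, ← Finset.sum_add_distrib]
    refine Finset.sum_congr rfl fun k _ => ?_
    rw [c_eq p s (n - k)]
    ring
  have h2 := sa_lt hp2 hp s n hn
  rw [h1]
  constructor
  · rw [Nat.add_mul_mod_self_left]
    exact Nat.mod_eq_of_lt h2
  · rw [Nat.add_mul_div_left _ _ (by norm_num), Nat.div_eq_of_lt h2, Nat.zero_add]

end Digits

section Field

variable {p : ℕ} [hpr : Fact p.Prime] (hp : p ≤ 71)
include hp

theorem ca_cast (s n : ℕ) (hn : n + 1 ≤ 72) : (ca p s (n + 1) : ZMod p) =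
    ((n + 1) ^ (p - 2) * (s * -(sb p s n : ZMod p))) := by
  rw [ca_succ hpr.out.two_le hp, ZMod.natCast_mod, Nat.cast_mul, Nat.cast_mul, ZMod.natCast_mod,
    Nat.cast_sub (Nat.mod_lt _ hpr.out.pos).le, ZMod.natCast_mod, ZMod.natCast_self,
    (dot_digits hpr.out.two_le hp s n hn).2, zero_sub, Nat.cast_pow]
  push_cast
  rfl

theorem cb_cast (s n : ℕ) (hn : n + 1 ≤ 72) : (cb p s (n + 1) : ZMod p) =
    ((n + 1) ^ (p - 2) * (s * (sa p s n : ZMod p))) := by
  rw [cb_succ hpr.out.two_le hp, ZMod.natCast_mod, Nat.cast_mul, Nat.cast_mul, ZMod.natCast_mod,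
    (dot_digits hpr.out.two_le hp s n hn).1, Nat.cast_pow]
  push_cast
  rfl

omit hp in
theorem inv_law (n : ℕ) (hn : n + 1 < p) :
    ((n : ZMod p) + 1) * ((n : ZMod p) + 1) ^ (p - 2) = 1 := by
  have h0 : ((n : ZMod p) + 1) ≠ 0 := by
    have : ((n + 1 : ℕ) : ZMod p) ≠ 0 := by
      intro h
      rw [ZMod.natCast_eq_zero_iff] at h
      exact absurd (Nat.le_of_dvd (Nat.succ_pos n) h) (by omega)
    push_cast at this
    exact this
  have h2 := hpr.out.two_le
  rw [← pow_succ', show p - 2 + 1 = p - 1 by omega]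
  exact ZMod.pow_card_sub_one_eq_one h0

/-- the sums in the recursion -/
theorem XY_sum (s n : ℕ) (hX : ∀ j ≤ n, X p s j = (j.factorial : ZMod p) * (ca p s j : ZMod p))
    (hY : ∀ j ≤ n, Y p s j = (j.factorial : ZMod p) * (cb p s j : ZMod p)) :
    X p s (n + 1) = -(s : ZMod p) * ((n.factorial : ZMod p) * (sb p s n : ZMod p)) ∧
    Y p s (n + 1) = (s : ZMod p) * ((n.factorial : ZMod p) * (sa p s n : ZMod p)) := by
  rw [X_succ, Y_succ]
  have e : (((s : ℤ)) : ZMod p) = (s : ZMod p) := by push_cast; rfl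
  rw [e]
  constructor
  · congr 1
    unfold sb
    push_cast
    rw [Finset.mul_sum]
    refine Finset.sum_congr rfl fun k hk => ?_
    have hk' : k ≤ n := Nat.lt_succ_iff.mp (Finset.mem_range.mp hk)
    rw [hY (n - k) (Nat.sub_le _ _)]
    have h3 : (n.factorial : ZMod p) = ((n - k).factorial : ZMod p) * (n.descFactorial k : ZMod p) := by
      exact_mod_cast congrArg (Nat.cast : ℕ → ZMod p) (Nat.factorial_mul_descFactorial hk').symm
    rw [h3]
    ring
  · congr 1
    unfold sa
    push_cast
    rw [Finset.mul_sum]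
    refine Finset.sum_congr rfl fun k hk => ?_
    have hk' : k ≤ n := Nat.lt_succ_iff.mp (Finset.mem_range.mp hk)
    rw [hX (n - k) (Nat.sub_le _ _)]
    have h3 : (n.factorial : ZMod p) = ((n - k).factorial : ZMod p) * (n.descFactorial k : ZMod p) := by
      exact_mod_cast congrArg (Nat.cast : ℕ → ZMod p) (Nat.factorial_mul_descFactorial hk').symm
    rw [h3]
    ring

theorem XY_list (s n : ℕ) : n < p → X p s n = (n.factorial : ZMod p) * (ca p s n : ZMod p) ∧
    Y p s n = (n.factorial : ZMod p) * (cb p s n : ZMod p) := by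
  induction n using Nat.strong_induction_on with
  | _ n ih =>
    intro hn
    rcases n with _ | n
    · rw [X_zero, Y_zero]
      have e1 : ca p s 0 = 1 := by
        unfold ca
        rw [c_zero]
      have e2 : cb p s 0 = 0 := by
        unfold cb
        rw [c_zero]
      rw [e1, e2]
      simp
    · have h := XY_sum hp s n (fun j hj => (ih j (by omega) (by omega)).1)
        (fun j hj => (ih j (by omega) (by omega)).2)
      have hi := inv_law n hn
      rw [h.1, h.2, ca_cast hp s n (by omega), cb_cast hp s n (by omega), Nat.factorial_succ]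
      push_cast
      constructor
      · linear_combination ((s : ZMod p) * (n.factorial : ZMod p) * (sb p s n : ZMod p)) * hi
      · linear_combination (-(s : ZMod p) * (n.factorial : ZMod p) * (sa p s n : ZMod p)) * hi

omit hp in
theorem fact_ne (n : ℕ) (hn : n < p) : (n.factorial : ZMod p) ≠ 0 := by
  intro h
  rw [ZMod.natCast_eq_zero_iff, Nat.Prime.dvd_factorial hpr.out] at h
  omega

omit hp in
theorem okc_cast (x : ℕ) (h : okc p x = true) :
    ((x % 16777216 : ℕ) : ZMod p) ^ 2 + ((x / 16777216 : ℕ) : ZMod p) ^ 2 ≠ 0 := by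
  rw [okc_iff] at h
  intro h1
  apply h
  have h2 : (((x % 16777216) * (x % 16777216) + (x / 16777216) * (x / 16777216) : ℕ) : ZMod p) = 0 := by
    push_cast
    rw [← h1]
    push_cast
    ring
  rw [ZMod.natCast_eq_zero_iff] at h2
  exact Nat.mod_eq_zero_of_dvd h2

/-- the norms for one `s` -/
theorem norm_ne (s : ℕ) (hs1 : 1 ≤ s) (hs : s < p) (h : okl p (run p s (p - 1)) = true) (r : ℕ)
    (hr : r ≤ p) : Nm p s r ≠ 0 := by
  rw [okl_iff] at h
  rcases Nat.lt_or_ge r p with hrp | hrp
  · have h1 : c p s r ∈ run p s (p - 1) := by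
      rw [run_eq, List.mem_map]
      refine ⟨p - 1 - r, ?_, ?_⟩
      · rw [List.mem_range]
        omega
      · congr 1
        omega
    have h2 := okc_cast _ (h.1 _ h1)
    have h3 := XY_list hp s r hrp
    unfold Nm
    rw [h3.1, h3.2]
    have h4 := fact_ne r hrp
    have e : ((r.factorial : ZMod p) * (ca p s r : ZMod p)) ^ 2 +
        ((r.factorial : ZMod p) * (cb p s r : ZMod p)) ^ 2 =
        (r.factorial : ZMod p) ^ 2 * ((ca p s r : ZMod p) ^ 2 + (cb p s r : ZMod p) ^ 2) := by ring
    rw [e]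
    exact mul_ne_zero (pow_ne_zero _ h4) h2
  · have hp1 := hpr.out.two_le
    have hrr : r = (p - 1) + 1 := by omega
    have h2 := okc_cast _ h.2
    have h5 := dot_digits hp1 hp s (p - 1) (by omega)
    rw [h5.1, h5.2] at h2
    have h3 := XY_sum hp s (p - 1) (fun j hj => (XY_list hp s j (by omega)).1)
      (fun j hj => (XY_list hp s j (by omega)).2)
    have h4 := fact_ne (p := p) (p - 1) (by omega)
    have h6 : (s : ZMod p) ≠ 0 := by
      intro h7
      rw [ZMod.natCast_eq_zero_iff] at h7
      exact absurd (Nat.le_of_dvd (by omega) h7) (by omega)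
    rw [hrr]
    unfold Nm
    rw [h3.1, h3.2]
    have e : (-(s : ZMod p) * (((p - 1).factorial : ZMod p) * (sb p s (p - 1) : ZMod p))) ^ 2 +
        ((s : ZMod p) * (((p - 1).factorial : ZMod p) * (sa p s (p - 1) : ZMod p))) ^ 2 =
        ((s : ZMod p) * ((p - 1).factorial : ZMod p)) ^ 2 *
        ((sa p s (p - 1) : ZMod p) ^ 2 + (sb p s (p - 1) : ZMod p) ^ 2) := by ring
    rw [e]
    exact mul_ne_zero (pow_ne_zero _ (mul_ne_zero h6 h4)) h2

end Field

/-- the conjugation -/
theorem XY_neg (p : ℕ) (t : ℤ) (n : ℕ) : X p (-t) n = X p t n ∧ Y p (-t) n = -Y p t n := by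
  induction n using Nat.strong_induction_on with
  | _ n ih =>
    rcases n with _ | n
    · rw [X_zero, X_zero, Y_zero, Y_zero]
      simp
    · rw [X_succ, X_succ, Y_succ, Y_succ]
      have h1 : ∀ k ∈ Finset.range (n + 1), (sg (k + 1) : ZMod p) * (n.descFactorial k : ZMod p) *
          Y p (-t) (n - k) = -((sg (k + 1) : ZMod p) * (n.descFactorial k : ZMod p) *
          Y p t (n - k)) := fun k _ => by
        rw [(ih (n - k) (by omega)).2]
        ring
      have h2 : ∀ k ∈ Finset.range (n + 1), (sg (k + 1) : ZMod p) * (n.descFactorial k : ZMod p) *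
          X p (-t) (n - k) = (sg (k + 1) : ZMod p) * (n.descFactorial k : ZMod p) *
          X p t (n - k) := fun k _ => by
        rw [(ih (n - k) (by omega)).1]
      rw [Finset.sum_congr rfl h1, Finset.sum_congr rfl h2, Finset.sum_neg_distrib]
      push_cast
      constructor
      · ring
      · ring

/-- the test implies that `p` is good -/
theorem good_of_chk (p n : ℕ) (hpr : p.Prime) (hp : p ≤ 71) (hn : p ≤ 2 * n + 1)
    (h : chk p n = true) : Good p := by
  have := Fact.mk hpr
  rw [chk_iff] at h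
  have key : ∀ s : ℕ, 1 ≤ s → s < p → ∀ r ≤ p, Nm p s r ≠ 0 := by
    intro s hs1 hs r hr
    rcases Nat.lt_or_ge n s with h1 | h1
    · have h2 := norm_ne hp (p - s) (by omega) (by omega) (h (p - s) (by omega) (by omega)) r hr
      have h3 : (((s : ℤ)) : ZMod p) = ((-((p - s : ℕ) : ℤ) : ℤ) : ZMod p) := by
        rw [Nat.cast_sub hs.le]
        push_cast
        simp
      intro h4
      apply h2
      unfold Nm at h4 ⊢
      rw [(XY_congr p h3 r).1, (XY_congr p h3 r).2, (XY_neg p _ r).1, (XY_neg p _ r).2] at h4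
      rw [neg_sq] at h4
      exact h4
    · exact norm_ne hp s hs1 hs (h s hs1 h1) r hr
  intro s hs r hr hdvd
  rw [Finset.mem_Ico] at hs
  rw [Finset.mem_range] at hr
  apply key s hs.1 hs.2 r (by omega)
  rw [← ZMod.intCast_zmod_eq_zero_iff_dvd] at hdvd
  push_cast at hdvd
  exact hdvd

end Pool.Agent.Q144.DA
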