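import Pool.Agent.Q144.DA.Arc

/-!
# Project DA (helper276), job DA-ARC: the computation (helper144)
-/

set_option autoImplicit false
set_option maxRecDepth 100000

namespace Pool.Agent.Q144.DA

open Pool.Agent.Q276.DA

theorem chk3 : chk 3 1 = true := by decide +kernel

theorem good3 : Good 3 :=
  good_of_chk 3 1 (by norm_num) (by norm_num) (by norm_num) chk3

theorem chk11 : chk 11 5 = true := by decide +kernel

theorem good11 : Good 11 :=
  good_of_chk 11 5 (by norm_num) (by norm_num) (by norm_num) chk11

theorem chk19 : chk 19 9 = true := by decide +kernel

theorem good19 : Good 19 :=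
  good_of_chk 19 9 (by norm_num) (by norm_num) (by norm_num) chk19

theorem chk43 : chk 43 21 = true := by decide +kernel

theorem good43 : Good 43 :=
  good_of_chk 43 21 (by norm_num) (by norm_num) (by norm_num) chk43

theorem chk47 : chk 47 23 = true := by decide +kernel

theorem good47 : Good 47 :=
  good_of_chk 47 23 (by norm_num) (by norm_num) (by norm_num) chk47

theorem chk59 : chk 59 29 = true := by decide +kernel

theorem good59 : Good 59 :=
  good_of_chk 59 29 (by norm_num) (by norm_num) (by norm_num) chk59

theorem chk67 : chk 67 33 = true := by decide +kernel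

theorem good67 : Good 67 :=
  good_of_chk 67 33 (by norm_num) (by norm_num) (by norm_num) chk67

theorem chk71 : chk 71 35 = true := by decide +kernel

theorem good71 : Good 71 :=
  good_of_chk 71 35 (by norm_num) (by norm_num) (by norm_num) chk71

/-- JOB DA-ARC. -/
theorem t_ARC : S_ARC := by
  intro p hp
  simp only [List.mem_cons, List.not_mem_nil, or_false] at hp
  rcases hp with rfl | rfl | rfl | rfl | rfl | rfl | rfl | rfl
  · exact good3
  · exact good11
  · exact good19
  · exact good43
  · exact good47
  · exact good59
  · exact good67
  · exact good71

end Pool.Agent.Q144.DA
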