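import Pool.Agent.Q276.DA.Stm

/-!
# Project DA (helper276), job DA-ARG: congruences for the Gaussian integers `n! P_n(i t)` (helper144)
-/

set_option autoImplicit false

namespace Pool.Agent.Q144.DA

open Pool.Agent.Q276.DA Complex

/-- the recursion of `Az` with sums over ranges -/
theorem Az_succ (t : ℤ) (n : ℕ) : Az t (n + 1) =
    (-t * ∑ k ∈ Finset.range (n + 1), (sg (k + 1) : ℤ) * (n.descFactorial k : ℤ) * (Az t (n - k)).2,
      t * ∑ k ∈ Finset.range (n + 1), (sg (k + 1) : ℤ) * (n.descFactorial k : ℤ) *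
        (Az t (n - k)).1) := by
  rw [Az]
  rw [Finset.sum_range, Finset.sum_range]

theorem Az_zero (t : ℤ) : Az t 0 = (1, 0) := by
  rw [Az]

/-- `n! P_n(i t)` is the Gaussian integer `Az t n` -/
theorem fact_P (hrec : S_REC) (t : ℤ) (n : ℕ) :
    (n.factorial : ℂ) * P ((t : ℂ) * I) n = ((Az t n).1 : ℂ) + ((Az t n).2 : ℂ) * I := by
  induction n using Nat.strong_induction_on with
  | _ n ih =>
    rcases n with _ | n
    · rw [hrec.1, Az_zero]
      simp
    · have h1 := hrec.2.1 ((t : ℂ) * I) n
      have h2 : ∀ k ∈ Finset.range (n + 1),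
          (n.factorial : ℂ) * ((sg (k + 1) : ℂ) * P ((t : ℂ) * I) (n - k)) =
          (sg (k + 1) : ℂ) * (n.descFactorial k : ℂ) *
            (((Az t (n - k)).1 : ℂ) + ((Az t (n - k)).2 : ℂ) * I) := by
        intro k hk
        have hk' : k ≤ n := Nat.lt_succ_iff.mp (Finset.mem_range.mp hk)
        rw [← ih (n - k) (by omega)]
        have h3 : (n.factorial : ℂ) = ((n - k).factorial : ℂ) * (n.descFactorial k : ℂ) := by
          exact_mod_cast (Nat.factorial_mul_descFactorial hk').symm
        rw [h3]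
        ring
      have h4 : ((n + 1).factorial : ℂ) * P ((t : ℂ) * I) (n + 1) = (t : ℂ) * I *
          ∑ k ∈ Finset.range (n + 1), (sg (k + 1) : ℂ) * (n.descFactorial k : ℂ) *
            (((Az t (n - k)).1 : ℂ) + ((Az t (n - k)).2 : ℂ) * I) := by
        rw [← Finset.sum_congr rfl h2, ← Finset.mul_sum, Nat.factorial_succ]
        push_cast
        linear_combination (n.factorial : ℂ) * h1
      rw [h4, Az_succ]
      push_cast
      simp only [mul_add, Finset.sum_add_distrib]
      have h5 : ∑ k ∈ Finset.range (n + 1), (sg (k + 1) : ℂ) * (n.descFactorial k : ℂ) *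
          (((Az t (n - k)).2 : ℂ) * I) = (∑ k ∈ Finset.range (n + 1), (sg (k + 1) : ℂ) *
          (n.descFactorial k : ℂ) * ((Az t (n - k)).2 : ℂ)) * I := by
        rw [Finset.sum_mul]
        refine Finset.sum_congr rfl fun k _ => ?_
        ring
      rw [h5]
      linear_combination (t : ℂ) * (∑ k ∈ Finset.range (n + 1), (sg (k + 1) : ℂ) *
          (n.descFactorial k : ℂ) * ((Az t (n - k)).2 : ℂ)) * I_sq

section Zp

variable (p : ℕ)

/-- the real part modulo `p` -/
def X (t : ℤ) (n : ℕ) : ZMod p := ((Az t n).1 : ZMod p)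

/-- the imaginary part modulo `p` -/
def Y (t : ℤ) (n : ℕ) : ZMod p := ((Az t n).2 : ZMod p)

theorem X_zero (t : ℤ) : X p t 0 = 1 := by
  unfold X
  rw [Az_zero]
  simp

theorem Y_zero (t : ℤ) : Y p t 0 = 0 := by
  unfold Y
  rw [Az_zero]
  simp

theorem X_succ (t : ℤ) (n : ℕ) : X p t (n + 1) = -(t : ZMod p) *
    ∑ k ∈ Finset.range (n + 1), (sg (k + 1) : ZMod p) * (n.descFactorial k : ZMod p) *
      Y p t (n - k) := by
  unfold X Y
  rw [Az_succ]
  push_cast
  rfl

theorem Y_succ (t : ℤ) (n : ℕ) : Y p t (n + 1) = (t : ZMod p) *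
    ∑ k ∈ Finset.range (n + 1), (sg (k + 1) : ZMod p) * (n.descFactorial k : ZMod p) *
      X p t (n - k) := by
  unfold X Y
  rw [Az_succ]
  push_cast
  rfl

/-- only the class of `t` counts -/
theorem XY_congr {t s : ℤ} (h : (t : ZMod p) = (s : ZMod p)) (n : ℕ) :
    X p t n = X p s n ∧ Y p t n = Y p s n := by
  induction n using Nat.strong_induction_on with
  | _ n ih =>
    rcases n with _ | n
    · rw [X_zero, X_zero, Y_zero, Y_zero]
      exact ⟨rfl, rfl⟩
    · rw [X_succ, X_succ, Y_succ, Y_succ, h]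
      refine ⟨?_, ?_⟩
      · congr 1
        refine Finset.sum_congr rfl fun k _ => ?_
        rw [(ih (n - k) (by omega)).2]
      · congr 1
        refine Finset.sum_congr rfl fun k _ => ?_
        rw [(ih (n - k) (by omega)).1]

theorem df_low (m r k : ℕ) (hk : k ≤ r) :
    ((m * p + r).descFactorial k : ZMod p) = (r.descFactorial k : ZMod p) := by
  induction k with
  | zero => simp
  | succ k ih =>
    rw [Nat.descFactorial_succ, Nat.descFactorial_succ, Nat.cast_mul, Nat.cast_mul,
      ih (by omega)]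
    congr 1
    rw [Nat.add_sub_assoc (by omega)]
    push_cast
    simp

theorem df_high (m r k : ℕ) (hk : r < k) : ((m * p + r).descFactorial k : ZMod p) = 0 := by
  induction k with
  | zero => omega
  | succ k ih =>
    rw [Nat.descFactorial_succ, Nat.cast_mul]
    rcases Nat.lt_or_ge r k with h | h
    · rw [ih h, mul_zero]
    · have h1 : k = r := by omega
      rw [h1, Nat.add_sub_cancel]
      push_cast
      simp

/-- the recursion for `m p + r` only has the terms of the recursion for `r` -/
theorem sum_red (m r : ℕ) (f : ℕ → ZMod p) :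
    ∑ k ∈ Finset.range (m * p + r + 1), (sg (k + 1) : ZMod p) *
      ((m * p + r).descFactorial k : ZMod p) * f (m * p + r - k) =
    ∑ k ∈ Finset.range (r + 1), (sg (k + 1) : ZMod p) * (r.descFactorial k : ZMod p) *
      f (m * p + (r - k)) := by
  have hsub : Finset.range (r + 1) ⊆ Finset.range (m * p + r + 1) := by
    intro k hk
    rw [Finset.mem_range] at hk ⊢
    omega
  rw [← Finset.sum_subset hsub]
  · refine Finset.sum_congr rfl fun k hk => ?_
    have hk' : k ≤ r := Nat.lt_succ_iff.mp (Finset.mem_range.mp hk)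
    rw [df_low p m r k hk', Nat.add_sub_assoc hk']
  · intro k _ hk
    rw [Finset.mem_range, not_lt] at hk
    rw [df_high p m r k (by omega), mul_zero, zero_mul]

/-- `A_(m p + r) = A_(m p) A_r` modulo `p` for all `r` -/
theorem mul_law (t : ℤ) (m r : ℕ) :
    X p t (m * p + r) = X p t (m * p) * X p t r - Y p t (m * p) * Y p t r ∧
    Y p t (m * p + r) = X p t (m * p) * Y p t r + Y p t (m * p) * X p t r := by
  induction r using Nat.strong_induction_on with
  | _ r ih =>
    rcases r with _ | r
    · rw [X_zero, Y_zero]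
      simp
    · have e : m * p + (r + 1) = m * p + r + 1 := by ring
      rw [e, X_succ p t (m * p + r), Y_succ p t (m * p + r), sum_red p m r (Y p t),
        sum_red p m r (X p t), X_succ p t r, Y_succ p t r]
      have hX : ∀ k ∈ Finset.range (r + 1), (sg (k + 1) : ZMod p) * (r.descFactorial k : ZMod p) *
          X p t (m * p + (r - k)) =
          X p t (m * p) * ((sg (k + 1) : ZMod p) * (r.descFactorial k : ZMod p) * X p t (r - k)) -
          Y p t (m * p) * ((sg (k + 1) : ZMod p) * (r.descFactorial k : ZMod p) *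
            Y p t (r - k)) := by
        intro k _
        rw [(ih (r - k) (by omega)).1]
        ring
      have hY : ∀ k ∈ Finset.range (r + 1), (sg (k + 1) : ZMod p) * (r.descFactorial k : ZMod p) *
          Y p t (m * p + (r - k)) =
          X p t (m * p) * ((sg (k + 1) : ZMod p) * (r.descFactorial k : ZMod p) * Y p t (r - k)) +
          Y p t (m * p) * ((sg (k + 1) : ZMod p) * (r.descFactorial k : ZMod p) *
            X p t (r - k)) := by
        intro k _
        rw [(ih (r - k) (by omega)).2]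
        ring
      rw [Finset.sum_congr rfl hX, Finset.sum_congr rfl hY, Finset.sum_sub_distrib,
        Finset.sum_add_distrib, ← Finset.mul_sum, ← Finset.mul_sum, ← Finset.mul_sum,
        ← Finset.mul_sum]
      constructor
      · ring
      · ring

/-- the norm modulo `p` -/
def Nm (t : ℤ) (n : ℕ) : ZMod p := X p t n ^ 2 + Y p t n ^ 2

theorem Nm_law (t : ℤ) (m r : ℕ) : Nm p t (m * p + r) = Nm p t (m * p) * Nm p t r := by
  unfold Nm
  rw [(mul_law p t m r).1, (mul_law p t m r).2]
  ring

theorem Nm_pow (t : ℤ) (m : ℕ) : Nm p t (m * p) = Nm p t p ^ m := by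
  induction m with
  | zero =>
    rw [Nat.zero_mul, pow_zero]
    unfold Nm
    rw [X_zero, Y_zero]
    ring
  | succ m ih =>
    rw [Nat.succ_mul, Nm_law, ih, pow_succ]

end Zp

/-- JOB DA-ARG. -/
theorem t_ARG (hrec : S_REC) : S_ARG := by
  intro p hp hg t ht n hP
  have := Fact.mk hp
  have hp0 : 0 < p := hp.pos
  -- the class of `t`
  obtain ⟨s, hs⟩ : ∃ s : ℕ, (s : ℤ) = t % p := ⟨(t % p).toNat, by
    rw [Int.toNat_of_nonneg]
    exact Int.emod_nonneg _ (by exact_mod_cast hp0.ne')⟩
  have hsp : s < p := by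
    have h1 : t % p < p := Int.emod_lt_of_pos _ (by exact_mod_cast hp0)
    rw [← hs] at h1
    exact_mod_cast h1
  have hs1 : 1 ≤ s := by
    rcases Nat.eq_zero_or_pos s with h | h
    · exfalso
      rw [h] at hs
      exact ht (Int.dvd_of_emod_eq_zero hs.symm)
    · exact h
  have hts : (t : ZMod p) = ((s : ℤ) : ZMod p) := by
    rw [hs]
    exact (ZMod.intCast_mod t p).symm
  have hN : ∀ r ≤ p, Nm p t r ≠ 0 := by
    intro r hr h
    apply hg s (Finset.mem_Ico.mpr ⟨hs1, hsp⟩) r (Finset.mem_range.mpr (by omega))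
    rw [← ZMod.intCast_zmod_eq_zero_iff_dvd]
    push_cast
    have h1 := XY_congr p hts r
    unfold Nm at h
    rw [h1.1, h1.2] at h
    exact h
  have hnz : Nm p t n ≠ 0 := by
    have e : n = (n / p) * p + n % p := (Nat.div_add_mod' n p).symm
    rw [e, Nm_law, Nm_pow]
    exact mul_ne_zero (pow_ne_zero _ (hN p le_rfl)) (hN _ (Nat.mod_lt _ hp0).le)
  apply hnz
  have h1 := fact_P hrec t n
  rw [hP, mul_zero] at h1
  have h2 := congrArg Complex.re h1
  have h3 := congrArg Complex.im h1
  simp at h2 h3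
  have h4 : (Az t n).1 = 0 := by exact_mod_cast h2.symm
  have h5 : (Az t n).2 = 0 := by exact_mod_cast h3.symm
  unfold Nm X Y
  rw [h4, h5]
  simp

end Pool.Agent.Q144.DA
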